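import Pool.Agent.Helper13.Sof.Goals

/-!
# Packet SI: self improvement of labellings
-/

namespace Pool.Agent.Helper88.Sof

open Finset Pool.Agent.Helper13.Sof

noncomputable section

variable {A : Type} [Fintype A]

/-! ## Counting -/

theorem cnt_nonneg (P : A → Prop) : 0 ≤ cnt P := by
  unfold cnt
  positivity

theorem cnt_mono {P Q : A → Prop} (h : ∀ s, P s → Q s) : cnt P ≤ cnt Q := by
  classical
  unfold cnt
  have : ((univ.filter P).card) ≤ (univ.filter Q).card := by
    apply card_le_card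
    intro s hs
    rw [mem_filter] at hs ⊢
    exact ⟨hs.1, h s hs.2⟩
  exact_mod_cast this

open Classical in
theorem cnt_eq_sum (P : A → Prop) : cnt P = ∑ s, if P s then (1 : ℝ) else 0 := by
  unfold cnt
  rw [Finset.card_filter]
  push_cast
  rfl

theorem cnt_eq_sum' (P : A → Prop) [DecidablePred P] :
    cnt P = ∑ s, if P s then (1 : ℝ) else 0 := by
  rw [cnt_eq_sum]
  refine sum_congr rfl fun s _ => ?_
  congr

theorem cnt_or_le (P Q : A → Prop) : cnt (fun s => P s ∨ Q s) ≤ cnt P + cnt Q := by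
  classical
  rw [cnt_eq_sum', cnt_eq_sum' P, cnt_eq_sum' Q, ← sum_add_distrib]
  refine sum_le_sum fun s _ => ?_
  by_cases h1 : P s <;> by_cases h2 : Q s <;> simp [h1, h2]

theorem cnt_perm (σ : Equiv.Perm A) (P : A → Prop) : cnt (fun s => P (σ s)) = cnt P := by
  classical
  rw [cnt_eq_sum, cnt_eq_sum]
  exact Equiv.sum_comp σ (fun s => if P s then (1 : ℝ) else 0)

theorem cnt_markov {P : A → Prop} {F : A → ℝ} {c : ℝ} (h0 : ∀ s, 0 ≤ F s)
    (h : ∀ s, P s → c ≤ F s) : c * cnt P ≤ ∑ s, F s := by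
  classical
  rw [cnt_eq_sum, mul_sum]
  refine sum_le_sum fun s _ => ?_
  by_cases hs : P s
  · rw [if_pos hs, mul_one]
    exact h s hs
  · rw [if_neg hs, mul_zero]
    exact h0 s

/-! ## The operator `Q` -/

/-- The average over the powers of `x`. -/
def avg (p : ℕ) (x : Equiv.Perm A) (f : A → ℝ) (s : A) : ℝ :=
  (∑ a ∈ range p, f ((x ^ a) s)) / (p : ℝ)

theorem avg_inv {p : ℕ} {x : Equiv.Perm A} (hx : x ^ p = 1) (f : A → ℝ) (s : A) :
    avg p x f (x s) = avg p x f s := by
  unfold avg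
  congr 1
  have h1 : ∀ a, f ((x ^ a) (x s)) = f ((x ^ (a + 1)) s) := fun a => by
    rw [pow_succ, Equiv.Perm.mul_apply]
  simp only [h1]
  have h2 := sum_range_succ' (fun a => f ((x ^ a) s)) p
  have h3 := sum_range_succ (fun a => f ((x ^ a) s)) p
  simp only [hx, pow_zero] at h2 h3
  linarith

theorem sub_eq_Qop {p : ℕ} {x : Equiv.Perm A} (hx : x ^ p = 1) (f : A → ℝ) (s : A) :
    f s - f (x s) = Qop p x f s - Qop p x f (x s) := by
  have h := avg_inv hx f s
  unfold avg at h
  unfold Qop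
  rw [h]
  ring

theorem sum_diff_le {p : ℕ} {x : Equiv.Perm A} (hx : x ^ p = 1) (f : A → ℝ) :
    ∑ s, (f s - f (x s)) ^ 2 ≤ 4 * ∑ s, Qop p x f s ^ 2 := by
  have h1 : ∑ s, Qop p x f (x s) ^ 2 = ∑ s, Qop p x f s ^ 2 :=
    Equiv.sum_comp x (fun s => Qop p x f s ^ 2)
  calc ∑ s, (f s - f (x s)) ^ 2 ≤ ∑ s, (2 * Qop p x f s ^ 2 + 2 * Qop p x f (x s) ^ 2) := by
        refine sum_le_sum fun s _ => ?_
        rw [sub_eq_Qop hx]
        nlinarith [sq_nonneg (Qop p x f s + Qop p x f (x s))]
    _ = 4 * ∑ s, Qop p x f s ^ 2 := by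
        rw [sum_add_distrib, ← mul_sum, ← mul_sum, h1]
        ring

theorem diff_nsq_le {I : Type} [Fintype I] {p : ℕ} {x : Equiv.Perm A} (hx : x ^ p = 1)
    (g : A → I → ℝ) :
    ∑ s, ∑ i, (g s i - g (x s) i) ^ 2 ≤ 4 * nsq (Qv p x g) := by
  unfold nsq
  rw [sum_comm, sum_comm (f := fun s i => Qv p x g s i ^ 2), mul_sum]
  exact sum_le_sum fun i _ => sum_diff_le hx fun t => g t i

theorem cnt_pow_le (x : Equiv.Perm A) (q : A → ℕ) (a : ℕ) :
    cnt (fun s => q ((x ^ a) s) ≠ q s) ≤ a * cnt (fun s => q (x s) ≠ q s) := by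
  induction a with
  | zero =>
    simp [cnt]
  | succ a ih =>
    have h1 : cnt (fun s => q ((x ^ (a + 1)) s) ≠ q s) ≤
        cnt (fun s => q (x ((x ^ a) s)) ≠ q ((x ^ a) s)) + cnt (fun s => q ((x ^ a) s) ≠ q s) := by
      refine le_trans (cnt_mono fun s hs => ?_) (cnt_or_le _ _)
      rw [pow_succ', Equiv.Perm.mul_apply] at hs
      by_contra hcon
      push Not at hcon
      exact hs (hcon.1.trans hcon.2)
    have h2 : cnt (fun s => q (x ((x ^ a) s)) ≠ q ((x ^ a) s)) = cnt (fun s => q (x s) ≠ q s) :=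
      cnt_perm (x ^ a) (fun s => q (x s) ≠ q s)
    have h3 : ((a + 1 : ℕ) : ℝ) = a + 1 := by push_cast; ring
    rw [h3]
    linarith

/-! ## Indicators of labels -/

/-- Indicator functions of the labels. -/
def ind {M : ℕ} (q : A → ℕ) (s : A) (i : Fin M) : ℝ := if q s = i then 1 else 0

theorem ind_sum {M : ℕ} {q : A → ℕ} (hq : ∀ s, q s < M) (s : A) :
    ∑ i : Fin M, ind q s i = 1 := by
  unfold ind
  rw [Finset.sum_eq_single (⟨q s, hq s⟩ : Fin M)]
  · simp
  · intro i _ hi
    rw [if_neg]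
    intro h
    exact hi (Fin.ext h.symm)
  · simp

theorem ind_isSub {M : ℕ} {q : A → ℕ} (hq : ∀ s, q s < M) :
    IsSub (ind q : A → Fin M → ℝ) := by
  refine ⟨fun s i => ?_, fun s => (ind_sum hq s).le⟩
  unfold ind
  split_ifs <;> norm_num

open Classical in
theorem ind_diff {M : ℕ} {q : A → ℕ} (hq : ∀ s, q s < M) (s t : A) :
    ∑ i : Fin M, (ind q s i - ind q t i) ^ 2 = 2 * (if q t ≠ q s then 1 else 0) := by
  by_cases h : q t = q s
  · have : ∀ i : Fin M, ind q s i = ind q t i := fun i => by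
      unfold ind
      rw [h]
    simp [this, h]
  · have h1 : ∀ i : Fin M, (ind q s i - ind q t i) ^ 2 = ind q s i + ind q t i := fun i => by
      unfold ind
      by_cases h2 : q s = i
      · have h3 : q t ≠ i := fun h3 => h (h3.trans h2.symm)
        simp [h2, h3]
      · by_cases h3 : q t = i <;> simp [h2, h3]
    simp only [h1]
    rw [sum_add_distrib, ind_sum hq, ind_sum hq, if_pos h]
    norm_num

theorem nsq_Qv_ind_le {M p : ℕ} (hp : 0 < p) {q : A → ℕ} (hq : ∀ s, q s < M)
    (x : Equiv.Perm A) :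
    nsq (Qv p x (ind q : A → Fin M → ℝ)) ≤ p * cnt (fun s => q (x s) ≠ q s) := by
  classical
  have hp' : (0 : ℝ) < p := by exact_mod_cast hp
  have h1 : ∀ (s : A) (i : Fin M), Qv p x (ind q) s i ^ 2 ≤
      (∑ a ∈ range p, (ind q s i - ind q ((x ^ a) s) i) ^ 2) / p := by
    intro s i
    have e : Qv p x (ind q) s i = (∑ a ∈ range p, (ind q s i - ind q ((x ^ a) s) i)) / p := by
      unfold Qv Qop
      rw [sum_sub_distrib, sum_const, card_range, nsmul_eq_mul]
      field_simp
    rw [e, div_pow]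
    have h2 := sq_sum_le_card_mul_sum_sq (s := range p)
      (f := fun a => ind q s i - ind q ((x ^ a) s) i)
    rw [card_range] at h2
    rw [div_le_div_iff₀ (by positivity) hp']
    calc _ ≤ ((p : ℝ) * ∑ a ∈ range p, (ind q s i - ind q ((x ^ a) s) i) ^ 2) * p :=
          mul_le_mul_of_nonneg_right h2 hp'.le
      _ = _ := by ring
  have h2 : nsq (Qv p x (ind q : A → Fin M → ℝ)) ≤
      ∑ a ∈ range p, (2 * cnt (fun s => q ((x ^ a) s) ≠ q s)) / p := by
    unfold nsq
    calc _ ≤ ∑ s, ∑ i : Fin M, (∑ a ∈ range p, (ind q s i - ind q ((x ^ a) s) i) ^ 2) / p :=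
          sum_le_sum fun s _ => sum_le_sum fun i _ => h1 s i
      _ = ∑ a ∈ range p, ∑ s, (∑ i : Fin M, (ind q s i - ind q ((x ^ a) s) i) ^ 2) / p := by
          rw [sum_comm (s := range p)]
          refine sum_congr rfl fun s _ => ?_
          rw [← sum_div, ← sum_div, sum_comm]
      _ = _ := by
          refine sum_congr rfl fun a _ => ?_
          rw [cnt_eq_sum', mul_sum, sum_div]
          refine sum_congr rfl fun s _ => ?_
          rw [ind_diff hq]
  refine h2.trans ?_
  set B := cnt (fun s => q (x s) ≠ q s) with hB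
  have hB0 : 0 ≤ B := cnt_nonneg _
  calc ∑ a ∈ range p, (2 * cnt (fun s => q ((x ^ a) s) ≠ q s)) / p
      ≤ ∑ a ∈ range p, (2 * (a * B)) / p := by
        refine sum_le_sum fun a _ => ?_
        exact div_le_div_of_nonneg_right
          (mul_le_mul_of_nonneg_left (cnt_pow_le x q a) (by norm_num)) hp'.le
    _ = (2 * (∑ a ∈ range p, (a : ℝ)) * B) / p := by
        rw [← sum_div]
        congr 1
        rw [mul_assoc, sum_mul, mul_sum]
    _ ≤ p * B := by
        have h3 : (∑ a ∈ range p, (a : ℝ)) * 2 = p * (p - 1) := by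
          have := Finset.sum_range_id_mul_two p
          have h4 : ((∑ a ∈ range p, a : ℕ) : ℝ) * 2 = ((p * (p - 1) : ℕ) : ℝ) := by
            exact_mod_cast this
          rw [Nat.cast_mul, Nat.cast_sub hp] at h4
          push_cast at h4
          exact h4
        rw [mul_comm 2, h3, div_le_iff₀ hp']
        nlinarith

theorem energy_ind_le {n M p : ℕ} (hp : 0 < p) {q : A → ℕ} (hq : ∀ s, q s < M)
    (ξ : Fin n → Equiv.Perm A) :
    energy p ξ (ind q : A → Fin M → ℝ) ≤ p * bdry ξ q := by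
  unfold energy bdry
  rw [mul_sum]
  exact sum_le_sum fun j _ => nsq_Qv_ind_le hp hq (ξ j)

/-! ## Thresholding -/

open Classical in
/-- A label in `P`, or `M` if there is none. -/
def lab {M : ℕ} (P : Fin M → Prop) : ℕ := if h : ∃ i, P i then (h.choose : ℕ) else M

theorem big_unique {M : ℕ} {v : Fin M → ℝ} (h0 : ∀ i, 0 ≤ v i) (h1 : ∑ i, v i ≤ 1)
    {i j : Fin M} (hi : 1 / 2 < v i) (hj : 1 / 2 < v j) : i = j := by
  by_contra hij
  have h2 : v i + v j ≤ ∑ k, v k := by
    rw [← sum_pair hij]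
    exact sum_le_sum_of_subset_of_nonneg (subset_univ _) fun k _ _ => h0 k
  linarith

theorem lab_eq {M : ℕ} {v : Fin M → ℝ} (h0 : ∀ i, 0 ≤ v i) (h1 : ∑ i, v i ≤ 1) {th : ℝ}
    (hth : 1 / 2 ≤ th) {i : Fin M} (hi : th < v i) : lab (fun j => th < v j) = i := by
  unfold lab
  have h : ∃ j, th < v j := ⟨i, hi⟩
  rw [dif_pos h]
  have h2 := h.choose_spec
  rw [big_unique h0 h1 (hth.trans_lt h2) (hth.trans_lt hi)]

theorem selfImprove (heat : HeatFlow) : SelfImprove := by
  classical
  intro n p _ hnp δ hδ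
  have hp : 0 < p := (Fact.out : p.Prime).pos
  -- constants
  obtain ⟨K₀, hK₀⟩ := exists_nat_ge (2 * (n : ℝ) / δ)
  set K : ℕ := K₀ + 1 with hK
  have hK1 : (1 : ℝ) ≤ K := by rw [hK]; push_cast; linarith [Nat.cast_nonneg (α := ℝ) K₀]
  have hKn : (n : ℝ) / K ≤ δ / 2 := by
    rw [div_le_iff₀ (by linarith)]
    have h1 : 2 * (n : ℝ) / δ ≤ K := hK₀.trans (by rw [hK]; push_cast; linarith)
    rw [div_le_iff₀ hδ] at h1
    linarith
  set w : ℝ := 1 / (6 * (K + 1)) with hw
  have hw0 : 0 < w := by rw [hw]; positivity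
  have hw1 : w ≤ 1 := by
    rw [hw, div_le_one (by positivity)]
    linarith
  have hwK : ((K : ℝ) + 1) * w = 1 / 6 := by
    rw [hw]
    field_simp
  set δ1 : ℝ := δ * w ^ 2 / 32 with hδ1
  have hδ10 : 0 < δ1 := by rw [hδ1]; positivity
  have hδ1a : 9 * δ1 ≤ δ := by
    have : w ^ 2 ≤ 1 := pow_le_one₀ hw0.le hw1
    have h2 : δ * w ^ 2 ≤ δ := by nlinarith
    rw [hδ1]
    linarith
  have hδ1b : 16 * δ1 / w ^ 2 = δ / 2 := by
    rw [hδ1]
    field_simp
    norm_num
  obtain ⟨ε, hε, H⟩ := heat n p hnp δ1 hδ10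
  refine ⟨ε, hε, fun A _ S hbad q => ?_⟩
  set N : ℝ := (Fintype.card A : ℝ) with hN
  have hN0 : 0 ≤ N := by rw [hN]; positivity
  -- labels
  set M : ℕ := (univ.sup q) + 1 with hM
  have hq : ∀ s, q s < M := fun s => Nat.lt_succ_of_le (le_sup (f := q) (mem_univ s))
  obtain ⟨g, hg, hge, hgf⟩ := H A S hbad (Fin M) (ind q) (ind_isSub hq)
  have hE := energy_ind_le (n := n) hp hq S.ξ
  have hgf' : nsq (fun s i => (ind q s i : ℝ) - g s i) ≤ 4 * (p * bdry S.ξ q) + δ1 * N :=
    hgf.trans (by linarith)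
  -- thresholds
  set th : ℕ → ℝ := fun k => 1 / 2 + (k + 1) * w with hth
  set W : ℕ → A → Prop := fun k s => ∃ i, |g s i - th k| < w / 2 with hW
  have hth1 : ∀ k, 1 / 2 + w ≤ th k := fun k => by
    have : (0 : ℝ) ≤ k := Nat.cast_nonneg k
    simp only [hth]
    nlinarith
  have hth2 : ∀ k < K, th k ≤ 2 / 3 := fun k hk => by
    have : (k : ℝ) + 1 ≤ K + 1 := by exact_mod_cast Nat.succ_le_succ hk.le
    simp only [hth]
    nlinarith
  have hdisj : ∀ s, ∑ k ∈ range K, (if W k s then (1 : ℝ) else 0) ≤ 1 := by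
    intro s
    have hcard : ((range K).filter fun k => W k s).card ≤ 1 := by
      rw [card_le_one]
      intro k hk k' hk'
      rw [mem_filter] at hk hk'
      obtain ⟨_, i, hi⟩ := hk
      obtain ⟨_, i', hi'⟩ := hk'
      rw [abs_lt] at hi hi'
      have e : i = i' := by
        refine big_unique (hg.1 s) (hg.2 s) ?_ ?_
        · linarith [hth1 k]
        · linarith [hth1 k']
      rw [← e] at hi'
      by_contra hne
      rcases lt_or_gt_of_ne hne with hlt | hlt
      · have h1 : (k : ℝ) + 1 ≤ k' := by exact_mod_cast hlt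
        have h2 : th k' - th k = (k' - k) * w := by simp only [hth]; ring
        nlinarith
      · have h1 : (k' : ℝ) + 1 ≤ k := by exact_mod_cast hlt
        have h2 : th k - th k' = (k - k') * w := by simp only [hth]; ring
        nlinarith
    rw [← Finset.sum_filter, sum_const, nsmul_eq_mul, mul_one]
    exact_mod_cast hcard
  have hsumW : ∑ k ∈ range K, cnt (W k) ≤ N := by
    calc ∑ k ∈ range K, cnt (W k) = ∑ k ∈ range K, ∑ s, (if W k s then (1 : ℝ) else 0) :=
          sum_congr rfl fun k _ => cnt_eq_sum' _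
      _ = ∑ s, ∑ k ∈ range K, (if W k s then (1 : ℝ) else 0) := sum_comm
      _ ≤ ∑ _s : A, (1 : ℝ) := sum_le_sum fun s _ => hdisj s
      _ = N := by simp [hN]
  obtain ⟨k, hkK, hkW⟩ : ∃ k < K, cnt (W k) ≤ N / K := by
    by_contra hcon
    push Not at hcon
    have h1 : ∑ _k ∈ range K, N / K < ∑ k ∈ range K, cnt (W k) := by
      refine sum_lt_sum_of_nonempty ⟨0, ?_⟩ fun k hk => hcon k (mem_range.mp hk)
      rw [mem_range, hK]
      exact Nat.succ_pos _
    rw [sum_const, card_range, nsmul_eq_mul, mul_div_cancel₀ _ (by linarith)] at h1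
    linarith
  -- the new labelling
  refine ⟨fun s => lab (fun i => th k < g s i), ?_, ?_⟩
  · have h1 : 1 / 9 * cnt (fun s => lab (fun i => th k < g s i) ≠ q s) ≤
        nsq (fun s i => (ind q s i : ℝ) - g s i) := by
      unfold nsq
      refine cnt_markov (fun s => sum_nonneg fun i _ => sq_nonneg _) fun s hs => ?_
      have h2 : g s ⟨q s, hq s⟩ ≤ th k := by
        by_contra h3
        push Not at h3
        exact hs (lab_eq (hg.1 s) (hg.2 s) (by linarith [hth1 k]) h3)
      have h3 : ind q s (⟨q s, hq s⟩ : Fin M) = 1 := by simp [ind]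
      calc (1 : ℝ) / 9 ≤ (ind q s (⟨q s, hq s⟩ : Fin M) - g s ⟨q s, hq s⟩) ^ 2 := by
            rw [h3]
            have h4 := hth2 k hkK
            nlinarith
        _ ≤ _ := single_le_sum (f := fun i : Fin M => (ind q s i - g s i) ^ 2)
            (fun i _ => sq_nonneg _) (mem_univ _)
    have h2 : δ1 * N * 9 ≤ δ * N := by nlinarith
    linarith
  · set q' : A → ℕ := fun s => lab (fun i => th k < g s i) with hq'
    have h1 : ∀ j : Fin n, cnt (fun s => q' (S.ξ j s) ≠ q' s) ≤
        N / K + 16 / w ^ 2 * nsq (Qv p (S.ξ j) g) := by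
      intro j
      have h2 : cnt (fun s => q' (S.ξ j s) ≠ q' s) ≤ cnt (W k) +
          cnt (fun s => ∃ i, w / 2 ≤ |g s i - g (S.ξ j s) i|) := by
        refine le_trans (cnt_mono fun s hs => ?_) (cnt_or_le _ _)
        by_contra hcon
        push Not at hcon
        obtain ⟨hc1, hc2⟩ := hcon
        apply hs
        have h3 : ∀ i, (th k < g (S.ξ j s) i ↔ th k < g s i) := by
          intro i
          have h4 := hc2 i
          have h5 : w / 2 ≤ |g s i - th k| := by
            by_contra h6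
            push Not at h6
            exact hc1 ⟨i, h6⟩
          rw [abs_lt] at h4
          rw [le_abs] at h5
          constructor
          · intro h6
            rcases h5 with h5 | h5
            · linarith
            · linarith
          · intro h6
            rcases h5 with h5 | h5
            · linarith
            · linarith
        simp only [hq']
        congr 1
        funext i
        exact propext (h3 i)
      have h3 : (w / 2) ^ 2 * cnt (fun s => ∃ i, w / 2 ≤ |g s i - g (S.ξ j s) i|) ≤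
          4 * nsq (Qv p (S.ξ j) g) := by
        refine le_trans ?_ (diff_nsq_le (S.ξ_pow j) g)
        refine cnt_markov (fun s => sum_nonneg fun i _ => sq_nonneg _) fun s hs => ?_
        obtain ⟨i, hi⟩ := hs
        calc (w / 2) ^ 2 ≤ |g s i - g (S.ξ j s) i| ^ 2 :=
              pow_le_pow_left₀ (by linarith) hi 2
          _ = (g s i - g (S.ξ j s) i) ^ 2 := sq_abs _
          _ ≤ _ := single_le_sum (f := fun i : Fin M => (g s i - g (S.ξ j s) i) ^ 2)
              (fun i _ => sq_nonneg _) (mem_univ _)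
      have h4 : cnt (fun s => ∃ i, w / 2 ≤ |g s i - g (S.ξ j s) i|) ≤
          16 / w ^ 2 * nsq (Qv p (S.ξ j) g) := by
        rw [div_mul_eq_mul_div, le_div_iff₀ (by positivity)]
        nlinarith
      linarith
    calc bdry S.ξ q' ≤ ∑ j : Fin n, (N / K + 16 / w ^ 2 * nsq (Qv p (S.ξ j) g)) :=
          sum_le_sum fun j _ => h1 j
      _ = n / K * N + 16 / w ^ 2 * energy p S.ξ g := by
          rw [sum_add_distrib, sum_const, card_univ, Fintype.card_fin, nsmul_eq_mul, ← mul_sum]
          unfold energy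
          ring
      _ ≤ δ / 2 * N + 16 / w ^ 2 * (δ1 * N) := by
          refine add_le_add (mul_le_mul_of_nonneg_right hKn hN0) ?_
          exact mul_le_mul_of_nonneg_left hge (by positivity)
      _ = δ * N := by
          have : 16 / w ^ 2 * (δ1 * N) = (16 * δ1 / w ^ 2) * N := by ring
          rw [this, hδ1b]
          ring

end

end Pool.Agent.Helper88.Sof
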