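import Pool.Agent.Helper88.Sof.SI

/-!
# Packets WORDL and WORDF: labellings and fluxes under words
-/

namespace Pool.Agent.Helper88.Sof

open Finset Pool.Agent.Helper13.Sof

noncomputable section

theorem ahom_mono {A : Type} [Fintype A] {G : Type} [Group G] {ψ : G → Equiv.Perm A}
    {F F' : Finset G} {ε : ℝ} (h : F ⊆ F') (hψ : AHom ψ F' ε) : AHom ψ F ε :=
  ⟨hψ.1, fun g hg h' hh => hψ.2 g (h hg) h' (h hh)⟩

theorem wordLabel : WordLabel := by
  classical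
  intro G _ n k g hg
  induction hg using Subgroup.closure_induction with
  | mem x hx =>
    obtain ⟨i, rfl⟩ := hx
    refine ⟨1, ∅, zero_le_one, fun ε hε A _ ψ hψ q => ?_⟩
    rw [one_mul]
    have h1 : cnt (fun s => q (ψ (k i) s) ≠ q s) ≤ ∑ i, cnt (fun s => q (ψ (k i) s) ≠ q s) :=
      single_le_sum (f := fun i => cnt (fun s => q (ψ (k i) s) ≠ q s))
        (fun i _ => cnt_nonneg _) (mem_univ i)
    have h2 : 0 ≤ ε * (Fintype.card A : ℝ) := by positivity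
    linarith
  | one =>
    refine ⟨0, ∅, le_rfl, fun ε hε A _ ψ hψ q => ?_⟩
    rw [hψ.1, zero_mul]
    simp [cnt]
  | mul x y _ _ ihx ihy =>
    obtain ⟨Cx, Fx, hCx, Hx⟩ := ihx
    obtain ⟨Cy, Fy, hCy, Hy⟩ := ihy
    refine ⟨Cx + Cy + 1, Fx ∪ Fy ∪ {x, y}, by positivity, fun ε hε A _ ψ hψ q => ?_⟩
    have hx := Hx ε hε A ψ (ahom_mono (fun z hz => by simp [hz]) hψ) q
    have hy := Hy ε hε A ψ (ahom_mono (fun z hz => by simp [hz]) hψ) q
    have hxy := hψ.2 x (by simp) y (by simp)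
    set B := ∑ i, cnt (fun s => q (ψ (k i) s) ≠ q s) + ε * (Fintype.card A : ℝ) with hB
    have hS0 : 0 ≤ ∑ i, cnt (fun s => q (ψ (k i) s) ≠ q s) := sum_nonneg fun i _ => cnt_nonneg _
    have hx' : cnt (fun s => q (ψ x (ψ y s)) ≠ q (ψ y s)) = cnt (fun s => q (ψ x s) ≠ q s) :=
      cnt_perm (ψ y) (fun s => q (ψ x s) ≠ q s)
    have h1 : cnt (fun s => q (ψ (x * y) s) ≠ q s) ≤ cnt (fun s => ψ (x * y) s ≠ ψ x (ψ y s)) +
        (cnt (fun s => q (ψ x (ψ y s)) ≠ q (ψ y s)) + cnt (fun s => q (ψ y s) ≠ q s)) := by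
      refine le_trans (cnt_mono fun s hs => ?_)
        ((cnt_or_le _ _).trans (add_le_add le_rfl (cnt_or_le _ _)))
      by_contra hcon
      push Not at hcon
      obtain ⟨h1, h2, h3⟩ := hcon
      exact hs (by rw [h1, h2, h3])
    rw [hx'] at h1
    nlinarith
  | inv x _ ihx =>
    obtain ⟨Cx, Fx, hCx, Hx⟩ := ihx
    refine ⟨Cx + 1, Fx ∪ {x, x⁻¹}, by positivity, fun ε hε A _ ψ hψ q => ?_⟩
    have hx := Hx ε hε A ψ (ahom_mono (fun z hz => by simp [hz]) hψ) q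
    have hxy := hψ.2 x (by simp) x⁻¹ (by simp)
    set B := ∑ i, cnt (fun s => q (ψ (k i) s) ≠ q s) + ε * (Fintype.card A : ℝ) with hB
    have hS0 : 0 ≤ ∑ i, cnt (fun s => q (ψ (k i) s) ≠ q s) := sum_nonneg fun i _ => cnt_nonneg _
    have hx' : cnt (fun s => q (ψ x (ψ x⁻¹ s)) ≠ q (ψ x⁻¹ s)) = cnt (fun s => q (ψ x s) ≠ q s) :=
      cnt_perm (ψ x⁻¹) (fun s => q (ψ x s) ≠ q s)
    have h1 : cnt (fun s => q (ψ x⁻¹ s) ≠ q s) ≤ cnt (fun s => ψ (x * x⁻¹) s ≠ ψ x (ψ x⁻¹ s)) +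
        cnt (fun s => q (ψ x (ψ x⁻¹ s)) ≠ q (ψ x⁻¹ s)) := by
      refine le_trans (cnt_mono fun s hs => ?_) (cnt_or_le _ _)
      by_contra hcon
      push Not at hcon
      obtain ⟨h1, h2⟩ := hcon
      rw [mul_inv_cancel, hψ.1, Equiv.Perm.one_apply] at h1
      rw [← h1] at h2
      exact hs h2.symm
    rw [hx'] at h1
    nlinarith

theorem flux_symm {A : Type} [Fintype A] (σ : Equiv.Perm A) (S : Finset A) :
    cnt (fun s => s ∉ S ∧ σ s ∈ S) = cnt (fun s => s ∈ S ∧ σ s ∉ S) := by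
  classical
  have h1 : cnt (fun s => σ s ∈ S) = cnt (fun s => s ∈ S) := cnt_perm σ (fun s => s ∈ S)
  rw [cnt_eq_sum', cnt_eq_sum'] at h1
  rw [cnt_eq_sum', cnt_eq_sum']
  have h2 : ∑ s, ((if s ∉ S ∧ σ s ∈ S then (1 : ℝ) else 0) -
      (if s ∈ S ∧ σ s ∉ S then (1 : ℝ) else 0)) =
      ∑ s, ((if σ s ∈ S then (1 : ℝ) else 0) - (if s ∈ S then (1 : ℝ) else 0)) := by
    refine sum_congr rfl fun s _ => ?_
    by_cases h3 : s ∈ S <;> by_cases h4 : σ s ∈ S <;> simp [h3, h4]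
  rw [sum_sub_distrib, sum_sub_distrib, h1, sub_self] at h2
  linarith

theorem wordFlux : WordFlux := by
  classical
  intro G _ m u g hg
  induction hg using Subgroup.closure_induction with
  | mem x hx =>
    obtain ⟨i, rfl⟩ := hx
    refine ⟨1, ∅, zero_le_one, fun ε hε A _ ψ hψ => ⟨∅, by simp; positivity, fun S => ?_⟩⟩
    rw [one_mul]
    have h1 : cnt (fun s => s ∈ S ∧ ψ (u i) s ∉ S) ≤ ∑ i, cnt (fun s => s ∈ S ∧ ψ (u i) s ∉ S) :=
      single_le_sum (f := fun i => cnt (fun s => s ∈ S ∧ ψ (u i) s ∉ S))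
        (fun i _ => cnt_nonneg _) (mem_univ i)
    have h2 := cnt_nonneg (fun s => s ∈ S ∧ s ∈ (∅ : Finset A))
    linarith
  | one =>
    refine ⟨0, ∅, le_rfl, fun ε hε A _ ψ hψ => ⟨∅, by simp, fun S => ?_⟩⟩
    rw [hψ.1, zero_mul]
    simp [cnt]
  | mul x y _ _ ihx ihy =>
    obtain ⟨Cx, Fx, hCx, Hx⟩ := ihx
    obtain ⟨Cy, Fy, hCy, Hy⟩ := ihy
    refine ⟨Cx + Cy + 1, Fx ∪ Fy ∪ {x, y}, by positivity, fun ε hε A _ ψ hψ => ?_⟩
    obtain ⟨Ex, hEx, hx⟩ := Hx ε hε A ψ (ahom_mono (fun z hz => by simp [hz]) hψ)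
    obtain ⟨Ey, hEy, hy⟩ := Hy ε hε A ψ (ahom_mono (fun z hz => by simp [hz]) hψ)
    have hxy := hψ.2 x (by simp) y (by simp)
    set D : Finset A := univ.filter (fun s => ψ (x * y) s ≠ ψ x (ψ y s)) with hD
    have hDc : (D.card : ℝ) ≤ ε * (Fintype.card A : ℝ) := by
      refine le_trans (le_of_eq ?_) hxy
      unfold cnt
      congr!
    refine ⟨Ex ∪ Ey ∪ D, ?_, fun S => ?_⟩
    · have h1 : ((Ex ∪ Ey ∪ D).card : ℝ) ≤ Ex.card + Ey.card + D.card := by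
        have h2 : (Ex ∪ Ey ∪ D).card ≤ Ex.card + Ey.card + D.card :=
          (card_union_le _ _).trans (Nat.add_le_add_right (card_union_le _ _) _)
        exact_mod_cast h2
      nlinarith
    · have hx := hx S
      have hy := hy S
      set Φ := ∑ i, cnt (fun s => s ∈ S ∧ ψ (u i) s ∉ S) with hΦ
      have hS0 : 0 ≤ Φ := sum_nonneg fun i _ => cnt_nonneg _
      set E := cnt (fun s => s ∈ S ∧ s ∈ Ex ∪ Ey ∪ D) with hE
      have hE0 : 0 ≤ E := cnt_nonneg _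
      have e1 : cnt (fun s => s ∈ S ∧ s ∈ Ex) ≤ E :=
        cnt_mono fun s hs => ⟨hs.1, by simp [hs.2]⟩
      have e2 : cnt (fun s => s ∈ S ∧ s ∈ Ey) ≤ E :=
        cnt_mono fun s hs => ⟨hs.1, by simp [hs.2]⟩
      have hx' : cnt (fun s => ψ y s ∈ S ∧ ψ x (ψ y s) ∉ S) =
          cnt (fun s => s ∈ S ∧ ψ x s ∉ S) :=
        cnt_perm (ψ y) (fun s => s ∈ S ∧ ψ x s ∉ S)
      have h1 : cnt (fun s => s ∈ S ∧ ψ (x * y) s ∉ S) ≤ E +
          (cnt (fun s => ψ y s ∈ S ∧ ψ x (ψ y s) ∉ S) + cnt (fun s => s ∈ S ∧ ψ y s ∉ S)) := by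
        refine le_trans (cnt_mono fun s hs => ?_)
          ((cnt_or_le _ _).trans (add_le_add le_rfl (cnt_or_le _ _)))
        by_contra hcon
        push Not at hcon
        obtain ⟨h1, h2, h3⟩ := hcon
        have h4 := h1 hs.1
        have h5 : s ∉ D := fun h => h4 (by simp [h])
        rw [hD, mem_filter] at h5
        push Not at h5
        have h6 := h5 (mem_univ s)
        rw [h6] at hs
        exact hs.2 (h2 (h3 hs.1))
      rw [hx'] at h1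
      have e3 : Cx * (Φ + cnt (fun s => s ∈ S ∧ s ∈ Ex)) ≤ Cx * (Φ + E) :=
        mul_le_mul_of_nonneg_left (by linarith) hCx
      have e4 : Cy * (Φ + cnt (fun s => s ∈ S ∧ s ∈ Ey)) ≤ Cy * (Φ + E) :=
        mul_le_mul_of_nonneg_left (by linarith) hCy
      nlinarith
  | inv x _ ihx =>
    obtain ⟨Cx, Fx, hCx, Hx⟩ := ihx
    refine ⟨Cx + 1, Fx ∪ {x, x⁻¹}, by positivity, fun ε hε A _ ψ hψ => ?_⟩
    obtain ⟨Ex, hEx, hx⟩ := Hx ε hε A ψ (ahom_mono (fun z hz => by simp [hz]) hψ)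
    have hxy := hψ.2 x (by simp) x⁻¹ (by simp)
    set D : Finset A := univ.filter (fun s => ψ (x * x⁻¹) s ≠ ψ x (ψ x⁻¹ s)) with hD
    have hDc : (D.card : ℝ) ≤ ε * (Fintype.card A : ℝ) := by
      refine le_trans (le_of_eq ?_) hxy
      unfold cnt
      congr!
    refine ⟨Ex ∪ D, ?_, fun S => ?_⟩
    · have h1 : ((Ex ∪ D).card : ℝ) ≤ Ex.card + D.card := by
        exact_mod_cast card_union_le _ _
      nlinarith
    · have hx := hx S
      set Φ := ∑ i, cnt (fun s => s ∈ S ∧ ψ (u i) s ∉ S) with hΦ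
      have hS0 : 0 ≤ Φ := sum_nonneg fun i _ => cnt_nonneg _
      set E := cnt (fun s => s ∈ S ∧ s ∈ Ex ∪ D) with hE
      have hE0 : 0 ≤ E := cnt_nonneg _
      have e1 : cnt (fun s => s ∈ S ∧ s ∈ Ex) ≤ E :=
        cnt_mono fun s hs => ⟨hs.1, by simp [hs.2]⟩
      have hx' : cnt (fun s => ψ x⁻¹ s ∉ S ∧ ψ x (ψ x⁻¹ s) ∈ S) =
          cnt (fun s => s ∈ S ∧ ψ x s ∉ S) := by
        rw [← flux_symm]
        exact cnt_perm (ψ x⁻¹) (fun s => s ∉ S ∧ ψ x s ∈ S)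
      have h1 : cnt (fun s => s ∈ S ∧ ψ x⁻¹ s ∉ S) ≤ E +
          cnt (fun s => ψ x⁻¹ s ∉ S ∧ ψ x (ψ x⁻¹ s) ∈ S) := by
        refine le_trans (cnt_mono fun s hs => ?_) (cnt_or_le _ _)
        by_contra hcon
        push Not at hcon
        obtain ⟨h1, h2⟩ := hcon
        have h4 := h1 hs.1
        have h5 : s ∉ D := fun h => h4 (by simp [h])
        rw [hD, mem_filter] at h5
        push Not at h5
        have h6 := h5 (mem_univ s)
        rw [mul_inv_cancel, hψ.1, Equiv.Perm.one_apply] at h6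
        have h7 := h2 hs.2
        rw [← h6] at h7
        exact h7 hs.1
      rw [hx'] at h1
      have e3 : Cx * (Φ + cnt (fun s => s ∈ S ∧ s ∈ Ex)) ≤ Cx * (Φ + E) :=
        mul_le_mul_of_nonneg_left (by linarith) hCx
      nlinarith

end

end Pool.Agent.Helper88.Sof
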